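import Mathlib

set_option autoImplicit false

/-!
# Smooth dependence of solutions of linear differential equations on a real parameter
-/

namespace Pool.Agent.TH126.ODE

open Set Metric Filter Topology

variable {F : Type*} [NormedAddCommGroup F] [NormedSpace ℝ F]

theorem ls_gb {δ M η x : ℝ} (hM : 1 ≤ M) (hη : 0 ≤ η) (hx : 0 ≤ x) :
    gronwallBound δ M η x ≤ (δ + η) * Real.exp (M * x) := by
  rw [gronwallBound_of_K_ne_0 (by linarith)]
  show δ * Real.exp (M * x) + η / M * (Real.exp (M * x) - 1) ≤ _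
  have h1 : 1 ≤ Real.exp (M * x) := Real.one_le_exp (by positivity)
  have h2 : η / M ≤ η := div_le_self hη hM
  have h3 : 0 ≤ η / M := by positivity
  have h4 : η / M * (Real.exp (M * x) - 1) ≤ η * Real.exp (M * x) := by
    calc η / M * (Real.exp (M * x) - 1) ≤ η * (Real.exp (M * x) - 1) :=
          mul_le_mul_of_nonneg_right h2 (by linarith)
      _ ≤ η * Real.exp (M * x) := by nlinarith
  nlinarith

/-- Gronwall's inequality for a linear equation, forward in time -/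
theorem ls_gron1 {u : ℝ → F} {B : ℝ → F →L[ℝ] F} {g : ℝ → F} {d M η : ℝ} (hM : 1 ≤ M)
    (hη : 0 ≤ η) (hu : ∀ t ∈ Icc 0 d, HasDerivAt u (B t (u t) + g t) t)
    (hB : ∀ t ∈ Icc 0 d, ‖B t‖ ≤ M) (hg : ∀ t ∈ Icc 0 d, ‖g t‖ ≤ η) :
    ∀ t ∈ Icc 0 d, ‖u t‖ ≤ (‖u 0‖ + η) * Real.exp (M * t) := by
  intro t ht
  have h := norm_le_gronwallBound_of_norm_deriv_right_le (f := u) (f' := fun t => B t (u t) + g t)
    (δ := ‖u 0‖) (K := M) (ε := η) (a := 0) (b := d)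
    (fun s hs => (hu s hs).continuousAt.continuousWithinAt)
    (fun s hs => (hu s (Ico_subset_Icc_self hs)).hasDerivWithinAt) le_rfl
    (fun s hs => by
      calc ‖B s (u s) + g s‖ ≤ ‖B s (u s)‖ + ‖g s‖ := norm_add_le _ _
        _ ≤ ‖B s‖ * ‖u s‖ + η :=
          add_le_add ((B s).le_opNorm _) (hg s (Ico_subset_Icc_self hs))
        _ ≤ M * ‖u s‖ + η := by
          have := mul_le_mul_of_nonneg_right (hB s (Ico_subset_Icc_self hs)) (norm_nonneg (u s))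
          linarith) t ht
  rw [sub_zero] at h
  exact h.trans (ls_gb hM hη ht.1)

/-- Gronwall's inequality for a linear equation -/
theorem ls_gron {u : ℝ → F} {B : ℝ → F →L[ℝ] F} {g : ℝ → F} {c d M η : ℝ} (hc : c < 0)
    (hd : 0 < d) (hM : 1 ≤ M) (hη : 0 ≤ η)
    (hu : ∀ t ∈ Icc c d, HasDerivAt u (B t (u t) + g t) t)
    (hB : ∀ t ∈ Icc c d, ‖B t‖ ≤ M) (hg : ∀ t ∈ Icc c d, ‖g t‖ ≤ η) :
    ∀ t ∈ Icc c d, ‖u t‖ ≤ (‖u 0‖ + η) * Real.exp (M * (d - c)) := by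
  intro t ht
  have hnn : 0 ≤ ‖u 0‖ + η := add_nonneg (norm_nonneg _) hη
  rcases le_total 0 t with h0 | h0
  · have h1 := ls_gron1 (u := u) (B := B) (g := g) (d := d) hM hη
      (fun s hs => hu s ⟨hc.le.trans hs.1, hs.2⟩) (fun s hs => hB s ⟨hc.le.trans hs.1, hs.2⟩)
      (fun s hs => hg s ⟨hc.le.trans hs.1, hs.2⟩) t ⟨h0, ht.2⟩
    refine h1.trans (mul_le_mul_of_nonneg_left (Real.exp_le_exp.2 ?_) hnn)
    have := ht.2
    nlinarith
  · have hmem : ∀ s ∈ Icc 0 (-c), -s ∈ Icc c d := fun s hs =>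
      ⟨by linarith [hs.2], by linarith [hs.1]⟩
    have h1 := ls_gron1 (u := fun s => u (-s)) (B := fun s => -B (-s)) (g := fun s => -g (-s))
      (d := -c) hM hη
      (fun s hs => by
        have h2 := (hu (-s) (hmem s hs)).scomp s (hasDerivAt_neg s)
        refine h2.congr_deriv ?_
        simp only [neg_smul, one_smul, neg_add, neg_apply])
      (fun s hs => by
        rw [norm_neg]
        exact hB _ (hmem s hs))
      (fun s hs => by
        rw [norm_neg]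
        exact hg _ (hmem s hs)) (-t) ⟨by linarith, by linarith [ht.1]⟩
    simp only [neg_neg, neg_zero] at h1
    refine h1.trans (mul_le_mul_of_nonneg_left (Real.exp_le_exp.2 ?_) hnn)
    have := ht.1
    nlinarith

/-- uniform continuity in the parameter -/
theorem ls_uc {X : Type*} [PseudoMetricSpace X] {H : ℝ × ℝ → X} {a0 r c d : ℝ} (hr : 0 < r)
    (hH : ContinuousOn H (Icc (a0 - r) (a0 + r) ×ˢ Icc c d)) (ε : ℝ) (hε : 0 < ε) :
    ∃ δ : ℝ, 0 < δ ∧ δ ≤ r ∧ ∀ a b, |a - a0| < δ → |b - a0| < δ → ∀ t ∈ Icc c d,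
      dist (H (a, t)) (H (b, t)) ≤ ε := by
  have hK : IsCompact (Icc (a0 - r) (a0 + r) ×ˢ Icc c d) := isCompact_Icc.prod isCompact_Icc
  obtain ⟨δ, hδ, h⟩ := Metric.uniformContinuousOn_iff.1
    (hK.uniformContinuousOn_of_continuous hH) ε hε
  refine ⟨min r (δ / 2), lt_min hr (by linarith), min_le_left _ _, ?_⟩
  intro a b ha hb t ht
  have e1 := min_le_left r (δ / 2)
  have e2 := min_le_right r (δ / 2)
  rw [abs_lt] at ha hb
  refine (h (a, t) ⟨⟨by linarith, by linarith⟩, ht⟩ (b, t) ⟨⟨by linarith, by linarith⟩, ht⟩ ?_).le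
  rw [Prod.dist_eq]
  simp only [dist_self]
  rw [max_lt_iff]
  refine ⟨?_, hδ⟩
  rw [Real.dist_eq, abs_lt]
  constructor <;> linarith

/-- uniform convergence of the difference quotients -/
theorem ls_slope {H Ha : ℝ × ℝ → F} {a0 r c d : ℝ} (hr : 0 < r)
    (hHa : ContinuousOn Ha (Icc (a0 - r) (a0 + r) ×ˢ Icc c d))
    (hd : ∀ a ∈ Icc (a0 - r) (a0 + r), ∀ t ∈ Icc c d,
      HasDerivAt (fun a => H (a, t)) (Ha (a, t)) a) (ε : ℝ) (hε : 0 < ε) :
    ∃ δ : ℝ, 0 < δ ∧ δ ≤ r ∧ ∀ a, a ≠ a0 → |a - a0| < δ → ∀ t ∈ Icc c d,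
      ‖(a - a0)⁻¹ • (H (a, t) - H (a0, t)) - Ha (a0, t)‖ ≤ ε := by
  obtain ⟨δ, hδ, hδr, h⟩ := ls_uc hr hHa ε hε
  refine ⟨δ, hδ, hδr, ?_⟩
  intro a hne ha t ht
  have hconv : Convex ℝ (ball a0 δ) := convex_ball a0 δ
  have hmem : ∀ b ∈ ball a0 δ, |b - a0| < δ := fun b hb => by
    rwa [mem_ball, Real.dist_eq] at hb
  have hmem' : ∀ b ∈ ball a0 δ, b ∈ Icc (a0 - r) (a0 + r) := fun b hb => by
    have := hmem b hb
    rw [abs_lt] at this
    constructor <;> linarith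
  have key := hconv.norm_image_sub_le_of_norm_hasDerivWithin_le
    (f := fun b => H (b, t) - b • Ha (a0, t)) (f' := fun b => Ha (b, t) - Ha (a0, t)) (C := ε)
    (x := a0) (y := a)
    (fun b hb => by
      have h1 := (hd b (hmem' b hb) t ht).sub ((hasDerivAt_id b).smul_const (Ha (a0, t)))
      rw [one_smul] at h1
      exact h1.hasDerivWithinAt)
    (fun b hb => by
      rw [← dist_eq_norm]
      exact h b a0 (hmem b hb) (by rw [sub_self, abs_zero]; exact hδ) t ht)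
    (mem_ball_self hδ) (by rw [mem_ball, Real.dist_eq]; exact ha)
  have hpos : 0 < |a - a0| := abs_pos.2 (sub_ne_zero.2 hne)
  have e : (a - a0)⁻¹ • (H (a, t) - H (a0, t)) - Ha (a0, t) =
      (a - a0)⁻¹ • ((H (a, t) - a • Ha (a0, t)) - (H (a0, t) - a0 • Ha (a0, t))) := by
    have h2 : a - a0 ≠ 0 := sub_ne_zero.2 hne
    rw [show (H (a, t) - a • Ha (a0, t)) - (H (a0, t) - a0 • Ha (a0, t)) =
      (H (a, t) - H (a0, t)) - (a - a0) • Ha (a0, t) by rw [sub_smul]; abel,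
      smul_sub _ (H (a, t) - H (a0, t)) ((a - a0) • Ha (a0, t)), smul_smul,
      inv_mul_cancel₀ h2, one_smul]
  rw [e, norm_smul, norm_inv, Real.norm_eq_abs]
  rw [Real.norm_eq_abs] at key
  rw [inv_mul_le_iff₀ hpos, mul_comm]
  exact key

/-- continuous dependence on the parameter -/
theorem ls_cont {A : ℝ × ℝ → F →L[ℝ] F} {f y : ℝ × ℝ → F} {a0 r c d : ℝ} (hr : 0 < r)
    (hc : c < 0) (hd : 0 < d) (hA : ContinuousOn A (Icc (a0 - r) (a0 + r) ×ˢ Icc c d))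
    (hf : ContinuousOn f (Icc (a0 - r) (a0 + r) ×ˢ Icc c d))
    (hy : ∀ a ∈ Icc (a0 - r) (a0 + r), ∀ t ∈ Icc c d,
      HasDerivAt (fun t => y (a, t)) (A (a, t) (y (a, t)) + f (a, t)) t)
    (h0 : ContinuousAt (fun a => y (a, 0)) a0) (ε : ℝ) (hε : 0 < ε) :
    ∃ δ : ℝ, 0 < δ ∧ δ ≤ r ∧ ∀ a, |a - a0| < δ → ∀ t ∈ Icc c d,
      ‖y (a, t) - y (a0, t)‖ ≤ ε := by
  have hK : IsCompact (Icc (a0 - r) (a0 + r) ×ˢ Icc c d) := isCompact_Icc.prod isCompact_Icc
  obtain ⟨M0, hM0⟩ := hK.exists_bound_of_continuousOn hA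
  obtain ⟨M, hM⟩ : ∃ M, M = max M0 1 := ⟨_, rfl⟩
  have hM1 : 1 ≤ M := by rw [hM]; exact le_max_right _ _
  have ha0 : a0 ∈ Icc (a0 - r) (a0 + r) := ⟨by linarith, by linarith⟩
  obtain ⟨C, hC⟩ : ∃ C, C = Real.exp (M * (d - c)) := ⟨_, rfl⟩
  have hC0 : 0 < C := by rw [hC]; exact Real.exp_pos _
  have hy0 : ContinuousOn (fun z : ℝ × ℝ => y (a0, z.2)) (Icc (a0 - r) (a0 + r) ×ˢ Icc c d) := by
    intro z hz
    have h1 : ContinuousAt (fun t => y (a0, t)) z.2 := (hy a0 ha0 z.2 hz.2).continuousAt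
    exact (ContinuousAt.comp (g := fun t => y (a0, t)) (f := fun z : ℝ × ℝ => z.2) h1
      continuous_snd.continuousAt).continuousWithinAt
  have hH : ContinuousOn (fun z : ℝ × ℝ => A z (y (a0, z.2)) + f z)
      (Icc (a0 - r) (a0 + r) ×ˢ Icc c d) := (hA.clm_apply hy0).add hf
  obtain ⟨δ1, hδ1, hδ1r, h1⟩ := ls_uc hr hH (ε / (2 * C)) (by positivity)
  obtain ⟨δ2, hδ2, h2⟩ := Metric.continuousAt_iff.1 h0 (ε / (2 * C)) (by positivity)
  refine ⟨min δ1 δ2, lt_min hδ1 hδ2, (min_le_left _ _).trans hδ1r, ?_⟩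
  intro a ha t ht
  have ha1 : |a - a0| < δ1 := ha.trans_le (min_le_left _ _)
  have ha2 : |a - a0| < δ2 := ha.trans_le (min_le_right _ _)
  have haI : a ∈ Icc (a0 - r) (a0 + r) := by
    rw [abs_lt] at ha1
    constructor <;> linarith
  have key := ls_gron (u := fun t => y (a, t) - y (a0, t)) (B := fun t => A (a, t))
    (g := fun t => (A (a, t) (y (a0, t)) + f (a, t)) - (A (a0, t) (y (a0, t)) + f (a0, t)))
    hc hd hM1 (η := ε / (2 * C)) (by positivity)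
    (fun s hs => by
      refine ((hy a haI s hs).sub (hy a0 ha0 s hs)).congr_deriv ?_
      rw [map_sub]
      abel)
    (fun s hs => (hM0 _ ⟨haI, hs⟩).trans (by rw [hM]; exact le_max_left _ _))
    (fun s hs => by
      rw [← dist_eq_norm]
      exact h1 a a0 ha1 (by rw [sub_self, abs_zero]; exact hδ1) s hs) t ht
  have h3 : ‖y (a, 0) - y (a0, 0)‖ ≤ ε / (2 * C) := by
    rw [← dist_eq_norm]
    exact (h2 (by rw [Real.dist_eq]; exact ha2)).le
  refine key.trans ?_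
  rw [← hC]
  calc (‖y (a, 0) - y (a0, 0)‖ + ε / (2 * C)) * C ≤ (ε / (2 * C) + ε / (2 * C)) * C :=
        mul_le_mul_of_nonneg_right (by linarith) hC0.le
    _ = ε := by field_simp; ring

/-- differentiability in the parameter -/
theorem ls_deriv [CompleteSpace F] {A Aa : ℝ × ℝ → F →L[ℝ] F} {f fa y : ℝ × ℝ → F}
    {a0 r c d : ℝ} {v : F} (hr : 0 < r) (hc : c < 0) (hd : 0 < d)
    (hA : ContinuousOn A (Icc (a0 - r) (a0 + r) ×ˢ Icc c d))
    (hAa : ContinuousOn Aa (Icc (a0 - r) (a0 + r) ×ˢ Icc c d))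
    (hfa : ContinuousOn fa (Icc (a0 - r) (a0 + r) ×ˢ Icc c d))
    (hAd : ∀ a ∈ Icc (a0 - r) (a0 + r), ∀ t ∈ Icc c d,
      HasDerivAt (fun a => A (a, t)) (Aa (a, t)) a)
    (hfd : ∀ a ∈ Icc (a0 - r) (a0 + r), ∀ t ∈ Icc c d,
      HasDerivAt (fun a => f (a, t)) (fa (a, t)) a)
    (hy : ∀ a ∈ Icc (a0 - r) (a0 + r), ∀ t ∈ Icc c d,
      HasDerivAt (fun t => y (a, t)) (A (a, t) (y (a, t)) + f (a, t)) t)
    (h0 : HasDerivAt (fun a => y (a, 0)) v a0) :
    ∃ w : ℝ → F, w 0 = v ∧ (∀ t ∈ Icc c d, HasDerivAt (fun a => y (a, t)) (w t) a0) ∧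
      ∀ t ∈ Ioo c d, HasDerivAt w (A (a0, t) (w t) + (Aa (a0, t) (y (a0, t)) + fa (a0, t))) t := by
  have hK : IsCompact (Icc (a0 - r) (a0 + r) ×ˢ Icc c d) := isCompact_Icc.prod isCompact_Icc
  obtain ⟨M0, hM0⟩ := hK.exists_bound_of_continuousOn hA
  obtain ⟨M, hM⟩ : ∃ M, M = max M0 1 := ⟨_, rfl⟩
  have hM1 : 1 ≤ M := by rw [hM]; exact le_max_right _ _
  have ha0 : a0 ∈ Icc (a0 - r) (a0 + r) := ⟨by linarith, by linarith⟩
  obtain ⟨C, hC⟩ : ∃ C, C = Real.exp (M * (d - c)) := ⟨_, rfl⟩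
  have hC0 : 0 < C := by rw [hC]; exact Real.exp_pos _
  have hy0 : ContinuousOn (fun z : ℝ × ℝ => y (a0, z.2)) (Icc (a0 - r) (a0 + r) ×ˢ Icc c d) := by
    intro z hz
    have h1 : ContinuousAt (fun t => y (a0, t)) z.2 := (hy a0 ha0 z.2 hz.2).continuousAt
    exact (ContinuousAt.comp (g := fun t => y (a0, t)) (f := fun z : ℝ × ℝ => z.2) h1
      continuous_snd.continuousAt).continuousWithinAt
  obtain ⟨H, hH⟩ : ∃ H : ℝ × ℝ → F, H = fun z => A z (y (a0, z.2)) + f z := ⟨_, rfl⟩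
  obtain ⟨Ha, hHa⟩ : ∃ Ha : ℝ × ℝ → F, Ha = fun z => Aa z (y (a0, z.2)) + fa z := ⟨_, rfl⟩
  have hHac : ContinuousOn Ha (Icc (a0 - r) (a0 + r) ×ˢ Icc c d) := by
    rw [hHa]
    exact (hAa.clm_apply hy0).add hfa
  have hHd : ∀ a ∈ Icc (a0 - r) (a0 + r), ∀ t ∈ Icc c d,
      HasDerivAt (fun a => H (a, t)) (Ha (a, t)) a := by
    intro a ha t ht
    rw [hH, hHa]
    have h1 := (hAd a ha t ht).clm_apply (hasDerivAt_const a (y (a0, t)))
    rw [map_zero, add_zero] at h1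
    exact h1.add (hfd a ha t ht)
  obtain ⟨N, hN⟩ := hK.exists_bound_of_continuousOn hHac
  have hN0 : 0 ≤ N := (norm_nonneg _).trans (hN (a0, 0) ⟨ha0, ⟨hc.le, hd.le⟩⟩)
  obtain ⟨D, hD⟩ : ∃ D : ℝ → ℝ → F, D = fun a t => (a - a0)⁻¹ • (y (a, t) - y (a0, t)) :=
    ⟨_, rfl⟩
  obtain ⟨P, hP⟩ : ∃ P : ℝ → ℝ → F, P = fun a t => (a - a0)⁻¹ • (H (a, t) - H (a0, t)) :=
    ⟨_, rfl⟩
  have hDd : ∀ a ∈ Icc (a0 - r) (a0 + r), ∀ t ∈ Icc c d,
      HasDerivAt (D a) (A (a, t) (D a t) + P a t) t := by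
    intro a ha t ht
    rw [hD, hP, hH]
    refine (((hy a ha t ht).sub (hy a0 ha0 t ht)).const_smul ((a - a0)⁻¹)).congr_deriv ?_
    simp only
    rw [map_smul, ← smul_add, map_sub]
    congr 1
    abel
  have hI : ∀ᶠ a in 𝓝[≠] a0, a ∈ Icc (a0 - r) (a0 + r) :=
    (Filter.Eventually.filter_mono nhdsWithin_le_nhds
      (Icc_mem_nhds (by linarith) (by linarith)))
  have hball : ∀ δ : ℝ, 0 < δ → ∀ᶠ a in 𝓝[≠] a0, a ≠ a0 ∧ |a - a0| < δ := by
    intro δ hδ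
    refine Filter.Eventually.and (eventually_mem_nhdsWithin) ?_
    refine Filter.Eventually.filter_mono nhdsWithin_le_nhds ?_
    filter_upwards [Metric.ball_mem_nhds a0 hδ] with a ha
    rwa [mem_ball, Real.dist_eq] at ha
  have hPu : ∀ ε : ℝ, 0 < ε → ∀ᶠ a in 𝓝[≠] a0, ∀ t ∈ Icc c d, ‖P a t - Ha (a0, t)‖ ≤ ε := by
    intro ε hε
    obtain ⟨δ, hδ, -, h⟩ := ls_slope hr hHac hHd ε hε
    filter_upwards [hball δ hδ] with a ha t ht
    rw [hP]
    exact h a ha.1 ha.2 t ht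
  have hAu : ∀ ε : ℝ, 0 < ε → ∀ᶠ a in 𝓝[≠] a0, ∀ t ∈ Icc c d,
      ‖A (a, t) - A (a0, t)‖ ≤ ε := by
    intro ε hε
    obtain ⟨δ, hδ, -, h⟩ := ls_uc hr hA ε hε
    filter_upwards [hball δ hδ] with a ha t ht
    rw [← dist_eq_norm]
    exact h a a0 ha.2 (by rw [sub_self, abs_zero]; exact hδ) t ht
  have hD0 : Tendsto (fun a => D a 0) (𝓝[≠] a0) (𝓝 v) := by
    have h1 := hasDerivAt_iff_tendsto_slope.1 h0
    rw [hD]
    exact h1
  have hD0' : ∀ ε : ℝ, 0 < ε → ∀ᶠ a in 𝓝[≠] a0, ‖D a 0 - v‖ ≤ ε := by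
    intro ε hε
    filter_upwards [Metric.tendsto_nhds.1 hD0 ε hε] with a ha
    rw [← dist_eq_norm]
    exact ha.le
  have hMb : ∀ a ∈ Icc (a0 - r) (a0 + r), ∀ t ∈ Icc c d, ‖A (a, t)‖ ≤ M := fun a ha t ht =>
    (hM0 _ ⟨ha, ht⟩).trans (by rw [hM]; exact le_max_left _ _)
  obtain ⟨W, hW⟩ : ∃ W, W = (‖v‖ + 1 + (N + 1)) * C := ⟨_, rfl⟩
  have hW0 : 0 ≤ W := by rw [hW]; positivity
  have hDb : ∀ᶠ a in 𝓝[≠] a0, ∀ t ∈ Icc c d, ‖D a t‖ ≤ W := by
    filter_upwards [hI, hPu 1 one_pos, hD0' 1 one_pos] with a h1 h2 h3 t ht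
    have key := ls_gron (u := D a) (B := fun t => A (a, t)) (g := P a) hc hd hM1 (η := N + 1)
      (by linarith) (hDd a h1) (hMb a h1) (fun s hs => by
        have e : P a s = (P a s - Ha (a0, s)) + Ha (a0, s) := by abel
        rw [e]
        refine (norm_add_le _ _).trans ?_
        have := hN (a0, s) ⟨ha0, hs⟩
        have := h2 s hs
        linarith) t ht
    refine key.trans ?_
    rw [hW, ← hC]
    refine mul_le_mul_of_nonneg_right ?_ hC0.le
    have e : D a 0 = (D a 0 - v) + v := by abel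
    have : ‖D a 0‖ ≤ ‖D a 0 - v‖ + ‖v‖ := by
      conv_lhs => rw [e]
      exact norm_add_le _ _
    linarith
  have hCau : ∀ ε : ℝ, 0 < ε → ∃ S ∈ 𝓝[≠] a0, ∀ a ∈ S, ∀ b ∈ S, ∀ t ∈ Icc c d,
      ‖D a t - D b t‖ ≤ ε := by
    intro ε hε
    obtain ⟨ε1, hε1⟩ : ∃ ε1, ε1 = ε / ((4 + 2 * W) * C) := ⟨_, rfl⟩
    have hε10 : 0 < ε1 := by rw [hε1]; positivity
    refine ⟨_, ((hI.and hDb).and ((hPu ε1 hε10).and ((hAu ε1 hε10).and (hD0' ε1 hε10)))), ?_⟩
    rintro a ⟨⟨a1, a2⟩, a3, a4, a5⟩ b ⟨⟨b1, b2⟩, b3, b4, b5⟩ t ht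
    have key := ls_gron (u := fun t => D a t - D b t) (B := fun t => A (a, t))
      (g := fun t => (A (a, t) - A (b, t)) (D b t) + (P a t - P b t)) hc hd hM1
      (η := 2 * ε1 * W + 2 * ε1) (by positivity)
      (fun s hs => by
        refine ((hDd a a1 s hs).sub (hDd b b1 s hs)).congr_deriv ?_
        simp only [map_sub, sub_apply]
        abel)
      (hMb a a1)
      (fun s hs => by
        refine (norm_add_le _ _).trans (add_le_add ?_ ?_)
        · refine (ContinuousLinearMap.le_opNorm _ _).trans ?_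
          refine mul_le_mul ?_ (b2 s hs) (norm_nonneg _) (by positivity)
          have e : A (a, s) - A (b, s) = (A (a, s) - A (a0, s)) - (A (b, s) - A (a0, s)) := by abel
          rw [e]
          refine (norm_sub_le _ _).trans ?_
          have := a4 s hs
          have := b4 s hs
          linarith
        · have e : P a s - P b s = (P a s - Ha (a0, s)) - (P b s - Ha (a0, s)) := by abel
          rw [e]
          refine (norm_sub_le _ _).trans ?_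
          have := a3 s hs
          have := b3 s hs
          linarith) t ht
    refine key.trans ?_
    rw [← hC]
    have e : D a 0 - D b 0 = (D a 0 - v) - (D b 0 - v) := by abel
    have h1 : ‖D a 0 - D b 0‖ ≤ 2 * ε1 := by
      rw [e]
      refine (norm_sub_le _ _).trans ?_
      linarith
    calc (‖D a 0 - D b 0‖ + (2 * ε1 * W + 2 * ε1)) * C
        ≤ (2 * ε1 + (2 * ε1 * W + 2 * ε1)) * C := mul_le_mul_of_nonneg_right (by linarith) hC0.le
      _ = ε1 * ((4 + 2 * W) * C) := by ring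
      _ = ε := by rw [hε1]; field_simp
  have hlim : ∀ t, ∃ x : F, t ∈ Icc c d → Tendsto (fun a => D a t) (𝓝[≠] a0) (𝓝 x) := by
    intro t
    by_cases ht : t ∈ Icc c d
    · have hcau : Cauchy (map (fun a => D a t) (𝓝[≠] a0)) := by
        rw [Metric.cauchy_iff]
        refine ⟨inferInstance, ?_⟩
        intro ε hε
        obtain ⟨S, hS, h⟩ := hCau (ε / 2) (by linarith)
        refine ⟨(fun a => D a t) '' S, Filter.image_mem_map hS, ?_⟩
        rintro _ ⟨a, ha, rfl⟩ _ ⟨b, hb, rfl⟩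
        rw [dist_eq_norm]
        have := h a ha b hb t ht
        linarith
      obtain ⟨x, hx⟩ := CompleteSpace.complete hcau
      exact ⟨x, fun _ => hx⟩
    · exact ⟨0, fun h => absurd h ht⟩
  choose w hw using hlim
  have hwu : ∀ ε : ℝ, 0 < ε → ∀ᶠ a in 𝓝[≠] a0, ∀ t ∈ Icc c d, ‖D a t - w t‖ ≤ ε := by
    intro ε hε
    obtain ⟨S, hS, h⟩ := hCau ε hε
    filter_upwards [hS] with a ha t ht
    have h1 : Tendsto (fun b => ‖D a t - D b t‖) (𝓝[≠] a0) (𝓝 ‖D a t - w t‖) :=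
      ((hw t ht).const_sub (D a t)).norm
    refine le_of_tendsto h1 ?_
    filter_upwards [hS] with b hb
    exact h a ha b hb t ht
  have hwb : ∀ t ∈ Icc c d, ‖w t‖ ≤ W := by
    intro t ht
    refine le_of_tendsto (hw t ht).norm ?_
    filter_upwards [hDb] with a ha
    exact ha t ht
  refine ⟨w, ?_, ?_, ?_⟩
  · exact tendsto_nhds_unique (hw 0 ⟨hc.le, hd.le⟩) hD0
  · intro t ht
    rw [hasDerivAt_iff_tendsto_slope]
    have := hw t ht
    rw [hD] at this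
    exact this
  · intro t ht
    have hsub : Ioo c d ⊆ Icc c d := Ioo_subset_Icc_self
    have := hasDerivAt_of_tendstoUniformlyOn (l := 𝓝[≠] a0) (f := D)
      (f' := fun a t => A (a, t) (D a t) + P a t) (g := w)
      (g' := fun t => A (a0, t) (w t) + Ha (a0, t)) (s := Ioo c d) (x := t) isOpen_Ioo ?_ ?_ ?_ ht
    · rw [hHa] at this
      exact this
    · rw [Metric.tendstoUniformlyOn_iff]
      intro ε hε
      obtain ⟨ε1, hε1⟩ : ∃ ε1, ε1 = ε / (2 * (M + W + 1)) := ⟨_, rfl⟩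
      have hε10 : 0 < ε1 := by rw [hε1]; positivity
      filter_upwards [hI, hwu ε1 hε10, hAu ε1 hε10, hPu ε1 hε10] with a h1 h2 h3 h4 s hs
      have hs' := hsub hs
      rw [dist_comm, dist_eq_norm]
      have e : A (a, s) (D a s) + P a s - (A (a0, s) (w s) + Ha (a0, s)) =
          A (a, s) (D a s - w s) + (A (a, s) - A (a0, s)) (w s) + (P a s - Ha (a0, s)) := by
        simp only [map_sub, sub_apply]
        abel
      rw [e]
      have g1 : ‖A (a, s) (D a s - w s)‖ ≤ M * ε1 :=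
        (ContinuousLinearMap.le_opNorm _ _).trans
          (mul_le_mul (hMb a h1 s hs') (h2 s hs') (norm_nonneg _) (by linarith))
      have g2 : ‖(A (a, s) - A (a0, s)) (w s)‖ ≤ ε1 * W :=
        (ContinuousLinearMap.le_opNorm _ _).trans
          (mul_le_mul (h3 s hs') (hwb s hs') (norm_nonneg _) hε10.le)
      have g3 := h4 s hs'
      calc ‖A (a, s) (D a s - w s) + (A (a, s) - A (a0, s)) (w s) + (P a s - Ha (a0, s))‖
          ≤ ‖A (a, s) (D a s - w s)‖ + ‖(A (a, s) - A (a0, s)) (w s)‖ +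
            ‖P a s - Ha (a0, s)‖ := norm_add₃_le
        _ ≤ M * ε1 + ε1 * W + ε1 := by linarith
        _ = ε1 * (M + W + 1) := by ring
        _ = ε / 2 := by
          rw [hε1]
          have : 0 < M + W + 1 := by linarith
          field_simp
        _ < ε := by linarith
    · filter_upwards [hI] with a ha s hs
      exact hDd a ha s (hsub hs)
    · intro s hs
      exact hw s (hsub hs)

/-- a box around a point of the domain -/
theorem ls_box {t₁ t₂ : ℝ} (h1 : t₁ < 0) (h2 : 0 < t₂) {z : ℝ × ℝ}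
    (hz : z ∈ Ioo (-1 : ℝ) 1 ×ˢ Ioo t₁ t₂) :
    ∃ r c d : ℝ, 0 < r ∧ c < 0 ∧ 0 < d ∧ z.2 ∈ Ioo c d ∧
      Icc (z.1 - r) (z.1 + r) ×ˢ Icc c d ⊆ Ioo (-1 : ℝ) 1 ×ˢ Ioo t₁ t₂ := by
  obtain ⟨⟨a1, a2⟩, b1, b2⟩ := hz
  have e1 := min_le_left 0 z.2
  have e2 := min_le_right 0 z.2
  have e3 := le_max_left 0 z.2
  have e4 := le_max_right 0 z.2
  have e5 : t₁ < min 0 z.2 := lt_min h1 b1
  have e6 : max 0 z.2 < t₂ := max_lt h2 b2
  have e7 := min_le_left (z.1 + 1) (1 - z.1)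
  have e8 := min_le_right (z.1 + 1) (1 - z.1)
  have e9 : 0 < min (z.1 + 1) (1 - z.1) := lt_min (by linarith) (by linarith)
  refine ⟨min (z.1 + 1) (1 - z.1) / 2, (t₁ + min 0 z.2) / 2, (t₂ + max 0 z.2) / 2, by linarith,
    by linarith, by linarith, ⟨by linarith, by linarith⟩, ?_⟩
  rintro ⟨a, t⟩ ⟨⟨g1, g2⟩, g3, g4⟩
  simp only at g1 g2 g3 g4
  exact ⟨⟨by linarith, by linarith⟩, by linarith, by linarith⟩

/-- smooth dependence of the solutions of linear equations on a real parameter -/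
theorem lin_smooth {F : Type*} [NormedAddCommGroup F] [NormedSpace ℝ F] [CompleteSpace F]
    {t₁ t₂ : ℝ} (h1 : t₁ < 0) (h2 : 0 < t₂) (n : ℕ)
    {A : ℝ × ℝ → F →L[ℝ] F} {f y : ℝ × ℝ → F}
    (hA : ContDiffOn ℝ n A (Set.Ioo (-1 : ℝ) 1 ×ˢ Set.Ioo t₁ t₂))
    (hf : ContDiffOn ℝ n f (Set.Ioo (-1 : ℝ) 1 ×ˢ Set.Ioo t₁ t₂))
    (h0 : ContDiffOn ℝ n (fun a => y (a, 0)) (Set.Ioo (-1) 1))
    (hy : ∀ z ∈ Set.Ioo (-1 : ℝ) 1 ×ˢ Set.Ioo t₁ t₂,
      HasDerivAt (fun t => y (z.1, t)) (A z (y z) + f z) z.2) :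
    ContDiffOn ℝ n y (Set.Ioo (-1 : ℝ) 1 ×ˢ Set.Ioo t₁ t₂) := by
  have hO : IsOpen (Set.Ioo (-1 : ℝ) 1 ×ˢ Set.Ioo t₁ t₂) := isOpen_Ioo.prod isOpen_Ioo
  induction n generalizing f y with
  | zero =>
    rw [Nat.cast_zero, contDiffOn_zero] at hA hf h0 ⊢
    intro z hz
    obtain ⟨r, c, d, hr, hc, hd, hzc, hsub⟩ := ls_box h1 h2 hz
    have hcd : Icc c d ⊆ Ioo t₁ t₂ := fun s hs =>
      (hsub (a := (z.1, s)) ⟨⟨by linarith, by linarith⟩, hs⟩).2
    have hz1 : Ioo (-1 : ℝ) 1 ∈ 𝓝 z.1 := isOpen_Ioo.mem_nhds hz.1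
    have h0' : ContinuousAt (fun a => y (a, 0)) z.1 := (h0 z.1 hz.1).continuousAt hz1
    apply ContinuousAt.continuousWithinAt
    rw [Metric.continuousAt_iff]
    intro ε hε
    obtain ⟨δ, hδ, hδr, h⟩ := ls_cont hr hc hd (hA.mono hsub) (hf.mono hsub)
      (fun a ha t ht => hy (a, t) (hsub ⟨ha, ht⟩)) h0' (ε / 3) (by linarith)
    have hcont : ContinuousAt (fun t => y (z.1, t)) z.2 := (hy z hz).continuousAt
    obtain ⟨δ2, hδ2, h3⟩ := Metric.continuousAt_iff.1 hcont (ε / 3) (by linarith)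
    have hnb : Ioo c d ∈ 𝓝 z.2 := isOpen_Ioo.mem_nhds hzc
    obtain ⟨δ3, hδ3, h4⟩ := Metric.mem_nhds_iff.1 hnb
    refine ⟨min δ (min δ2 δ3), lt_min hδ (lt_min hδ2 hδ3), ?_⟩
    rintro ⟨a, t⟩ hat
    rw [Prod.dist_eq, max_lt_iff] at hat
    obtain ⟨g1, g2⟩ := hat
    simp only at g1 g2
    have g3 : dist a z.1 < δ := g1.trans_le (min_le_left _ _)
    have g4 : dist t z.2 < δ2 := g2.trans_le ((min_le_right _ _).trans (min_le_left _ _))
    have g5 : dist t z.2 < δ3 := g2.trans_le ((min_le_right _ _).trans (min_le_right _ _))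
    have g6 : t ∈ Icc c d := Ioo_subset_Icc_self (h4 g5)
    have g7 := h a (by rwa [Real.dist_eq] at g3) t g6
    have g8 := h3 g4
    rw [← dist_eq_norm] at g7
    calc dist (y (a, t)) (y z) ≤ dist (y (a, t)) (y (z.1, t)) + dist (y (z.1, t)) (y z) :=
          dist_triangle _ _ _
      _ < ε := by
        have : dist (y (z.1, t)) (y z) < ε / 3 := g8
        linarith
  | succ n ih =>
    have hle : ((n : ℕ) : WithTop ℕ∞) ≤ ((n + 1 : ℕ) : WithTop ℕ∞) := by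
      exact_mod_cast Nat.le_succ n
    have hn1 : ((n + 1 : ℕ) : WithTop ℕ∞) = (n : WithTop ℕ∞) + 1 := by push_cast; rfl
    have hone : (1 : WithTop ℕ∞) ≤ ((n + 1 : ℕ) : WithTop ℕ∞) := by
      exact_mod_cast Nat.succ_le_succ (Nat.zero_le n)
    have hyn := ih (hA.of_le hle) (hf.of_le hle) (h0.of_le hle) hy
    obtain ⟨Aa, hAa⟩ : ∃ Aa : ℝ × ℝ → F →L[ℝ] F, Aa = fun z => fderiv ℝ A z (1, 0) := ⟨_, rfl⟩
    obtain ⟨fa, hfa⟩ : ∃ fa : ℝ × ℝ → F, fa = fun z => fderiv ℝ f z (1, 0) := ⟨_, rfl⟩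
    obtain ⟨y1, hy1⟩ : ∃ y1 : ℝ × ℝ → F, y1 = fun z => deriv (fun a => y (a, z.2)) z.1 :=
      ⟨_, rfl⟩
    have hAan : ContDiffOn ℝ n Aa (Set.Ioo (-1 : ℝ) 1 ×ˢ Set.Ioo t₁ t₂) := by
      rw [hAa]
      exact (hA.fderiv_of_isOpen hO hn1.ge).clm_apply contDiffOn_const
    have hfan : ContDiffOn ℝ n fa (Set.Ioo (-1 : ℝ) 1 ×ˢ Set.Ioo t₁ t₂) := by
      rw [hfa]
      exact (hf.fderiv_of_isOpen hO hn1.ge).clm_apply contDiffOn_const
    have hcurve : ∀ (a t : ℝ), HasDerivAt (fun a : ℝ => (a, t)) ((1 : ℝ), (0 : ℝ)) a :=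
      fun a t => (hasDerivAt_id a).prodMk (hasDerivAt_const a t)
    have hAd : ∀ z ∈ Set.Ioo (-1 : ℝ) 1 ×ˢ Set.Ioo t₁ t₂,
        HasDerivAt (fun a => A (a, z.2)) (Aa z) z.1 := by
      intro z hz
      have g1 : HasFDerivAt A (fderiv ℝ A z) z :=
        (((hA.of_le hone).differentiableOn one_ne_zero z hz).differentiableAt
          (hO.mem_nhds hz)).hasFDerivAt
      rw [hAa]
      exact g1.comp_hasDerivAt (f := fun a : ℝ => (a, z.2)) z.1 (hcurve z.1 z.2)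
    have hfd : ∀ z ∈ Set.Ioo (-1 : ℝ) 1 ×ˢ Set.Ioo t₁ t₂,
        HasDerivAt (fun a => f (a, z.2)) (fa z) z.1 := by
      intro z hz
      have g1 : HasFDerivAt f (fderiv ℝ f z) z :=
        (((hf.of_le hone).differentiableOn one_ne_zero z hz).differentiableAt
          (hO.mem_nhds hz)).hasFDerivAt
      rw [hfa]
      exact g1.comp_hasDerivAt (f := fun a : ℝ => (a, z.2)) z.1 (hcurve z.1 z.2)
    have h0d : ∀ a ∈ Set.Ioo (-1 : ℝ) 1, HasDerivAt (fun a => y (a, 0)) (y1 (a, 0)) a := by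
      intro a ha
      rw [hy1]
      exact (((h0.of_le hone).differentiableOn one_ne_zero a ha).differentiableAt
        (isOpen_Ioo.mem_nhds ha)).hasDerivAt
    have key : ∀ z ∈ Set.Ioo (-1 : ℝ) 1 ×ˢ Set.Ioo t₁ t₂,
        HasDerivAt (fun a => y (a, z.2)) (y1 z) z.1 ∧
        HasDerivAt (fun t => y1 (z.1, t)) (A z (y1 z) + (Aa z (y z) + fa z)) z.2 := by
      intro z hz
      obtain ⟨r, c, d, hr, hc, hd, hzc, hsub⟩ := ls_box h1 h2 hz
      obtain ⟨w, w0, w1, w2⟩ := ls_deriv hr hc hd (hA.continuousOn.mono hsub)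
        (hAan.continuousOn.mono hsub) (hfan.continuousOn.mono hsub)
        (fun a ha t ht => hAd (a, t) (hsub ⟨ha, ht⟩))
        (fun a ha t ht => hfd (a, t) (hsub ⟨ha, ht⟩))
        (fun a ha t ht => hy (a, t) (hsub ⟨ha, ht⟩)) (h0d z.1 hz.1)
      have hw : ∀ t ∈ Icc c d, y1 (z.1, t) = w t := by
        intro t ht
        rw [hy1]
        exact (w1 t ht).deriv
      refine ⟨?_, ?_⟩
      · have e := hw z.2 (Ioo_subset_Icc_self hzc)
        have e' : y1 z = w z.2 := e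
        rw [e']
        exact w1 z.2 (Ioo_subset_Icc_self hzc)
      · have e' : y1 z = w z.2 := hw z.2 (Ioo_subset_Icc_self hzc)
        rw [e']
        refine (w2 z.2 hzc).congr_of_eventuallyEq ?_
        filter_upwards [isOpen_Ioo.mem_nhds hzc] with t ht
        exact hw t (Ioo_subset_Icc_self ht)
    have hy1n : ContDiffOn ℝ n y1 (Set.Ioo (-1 : ℝ) 1 ×ˢ Set.Ioo t₁ t₂) := by
      refine ih (f := fun z => Aa z (y z) + fa z) (y := y1) (hA.of_le hle)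
        ((hAan.clm_apply hyn).add hfan) ?_ (fun z hz => (key z hz).2)
      have g1 : ContDiffOn ℝ n (deriv (fun a => y (a, 0))) (Set.Ioo (-1) 1) :=
        h0.deriv_of_isOpen isOpen_Ioo hn1.ge
      refine g1.congr ?_
      intro a ha
      rw [hy1]
    have hgn : ContDiffOn ℝ n (fun z => A z (y z) + f z)
        (Set.Ioo (-1 : ℝ) 1 ×ˢ Set.Ioo t₁ t₂) :=
      ((hA.of_le hle).clm_apply hyn).add (hf.of_le hle)
    have hfd' : ∀ z ∈ Set.Ioo (-1 : ℝ) 1 ×ˢ Set.Ioo t₁ t₂, HasFDerivAt y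
        ((ContinuousLinearMap.fst ℝ ℝ ℝ).smulRight (y1 z) +
          (ContinuousLinearMap.snd ℝ ℝ ℝ).smulRight (A z (y z) + f z)) z := by
      intro z hz
      have hev : ∀ᶠ v in 𝓝 z, v ∈ Set.Ioo (-1 : ℝ) 1 ×ˢ Set.Ioo t₁ t₂ := hO.mem_nhds hz
      have g := hasStrictFDerivAt_uncurry_coprod (𝕜 := ℝ) (u := z) (f := fun a t => y (a, t))
        (f₁ := fun a t => ContinuousLinearMap.smulRight (1 : ℝ →L[ℝ] ℝ) (y1 (a, t)))
        (f₂ := fun a t => ContinuousLinearMap.smulRight (1 : ℝ →L[ℝ] ℝ)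
          (A (a, t) (y (a, t)) + f (a, t)))
        (by
          filter_upwards [hev] with v hv
          exact (key v hv).1.hasFDerivAt)
        (by
          filter_upwards [hev] with v hv
          exact (hy v hv).hasFDerivAt)
        (((contDiffOn_const (c := (1 : ℝ →L[ℝ] ℝ))).smulRight hy1n).continuousOn.continuousAt
          (hO.mem_nhds hz))
        (((contDiffOn_const (c := (1 : ℝ →L[ℝ] ℝ))).smulRight hgn).continuousOn.continuousAt
          (hO.mem_nhds hz))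
      refine g.hasFDerivAt.congr_fderiv ?_
      ext
      · simp [Function.HasUncurry.uncurry]
      · simp [Function.HasUncurry.uncurry]
    rw [hn1, contDiffOn_succ_iff_fderiv_of_isOpen hO]
    refine ⟨fun z hz => (hfd' z hz).differentiableAt.differentiableWithinAt, ?_, ?_⟩
    · intro h
      exact absurd h (by simp)
    · refine ContDiffOn.congr (((contDiffOn_const (c := ContinuousLinearMap.fst ℝ ℝ ℝ)).smulRight
        hy1n).add ((contDiffOn_const (c := ContinuousLinearMap.snd ℝ ℝ ℝ)).smulRight hgn)) ?_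
      intro z hz
      exact (hfd' z hz).fderiv

end Pool.Agent.TH126.ODE
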