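import Mathlib

set_option autoImplicit false

/-!
# Maximal solutions of autonomous differential equations with locally Lipschitz right hand side
-/

namespace Pool.Agent.TH126.ODE

open Set Metric Filter Topology
open scoped NNReal

variable {E : Type*} [NormedAddCommGroup E] [NormedSpace ℝ E]

/-- existence on an interval of uniform length -/
theorem ms_local [CompleteSpace E] (Φ : E → E)
    (hΦ : ∀ R : ℝ, ∃ L : NNReal, LipschitzOnWith L Φ (Metric.closedBall 0 R)) (R : ℝ) :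
    ∃ ε : ℝ, 0 < ε ∧ ∀ (x : E) (t₀ : ℝ), ‖x‖ ≤ R → ∃ α : ℝ → E, α t₀ = x ∧
      ∀ t ∈ Ioo (t₀ - ε) (t₀ + ε), HasDerivAt α (Φ (α t)) t := by
  obtain ⟨L, hL⟩ := hΦ (|R| + 1)
  have hB0 : 0 ≤ ‖Φ 0‖ + L * (|R| + 1) := by positivity
  obtain ⟨B, hB⟩ : ∃ B : NNReal, (B : ℝ) = ‖Φ 0‖ + L * (|R| + 1) := ⟨⟨_, hB0⟩, rfl⟩
  have hbd : ∀ y ∈ closedBall (0 : E) (|R| + 1), ‖Φ y‖ ≤ B := by
    intro y hy
    have h0 : (0 : E) ∈ closedBall (0 : E) (|R| + 1) := by
      rw [mem_closedBall, dist_self]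
      positivity
    have h1 := hL.dist_le_mul y hy 0 h0
    rw [dist_eq_norm, dist_zero_right] at h1
    have h2 : ‖y‖ ≤ |R| + 1 := by
      rwa [mem_closedBall, dist_zero_right] at hy
    rw [hB]
    calc ‖Φ y‖ = ‖Φ 0 + (Φ y - Φ 0)‖ := by congr 1; abel
      _ ≤ ‖Φ 0‖ + ‖Φ y - Φ 0‖ := norm_add_le _ _
      _ ≤ ‖Φ 0‖ + L * (|R| + 1) := by
        have : (L : ℝ) * ‖y‖ ≤ L * (|R| + 1) := mul_le_mul_of_nonneg_left h2 L.2
        linarith
  refine ⟨1 / ((B : ℝ) + 1), by positivity, ?_⟩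
  intro x t₀ hx
  have hε : 0 < 1 / ((B : ℝ) + 1) := by positivity
  have hsub : closedBall x (1 : ℝ) ⊆ closedBall (0 : E) (|R| + 1) := by
    intro y hy
    rw [mem_closedBall] at hy ⊢
    calc dist y 0 ≤ dist y x + dist x 0 := dist_triangle _ _ _
      _ ≤ 1 + R := by rw [dist_zero_right]; linarith
      _ ≤ |R| + 1 := by linarith [le_abs_self R]
  have hpl : IsPicardLindelof (fun _ : ℝ => Φ) (tmin := t₀ - 1 / ((B : ℝ) + 1))
      (tmax := t₀ + 1 / ((B : ℝ) + 1)) ⟨t₀, by constructor <;> linarith⟩ x 1 0 B L := by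
    apply IsPicardLindelof.of_time_independent
    · intro y hy
      exact hbd y (hsub hy)
    · exact hL.mono hsub
    · simp only [add_sub_cancel_left, sub_sub_cancel, max_self, NNReal.coe_one, NNReal.coe_zero,
        sub_zero]
      rw [mul_one_div, div_le_one (by positivity)]
      linarith
  obtain ⟨α, h1, h2⟩ := hpl.exists_eq_forall_mem_Icc_hasDerivWithinAt₀
  refine ⟨α, h1, fun t ht => ?_⟩
  exact (h2 t (Ioo_subset_Icc_self ht)).hasDerivAt (Icc_mem_nhds ht.1 ht.2)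

/-- uniqueness on intervals -/
theorem ms_unique (Φ : E → E)
    (hΦ : ∀ R : ℝ, ∃ L : NNReal, LipschitzOnWith L Φ (Metric.closedBall 0 R)) {a b t₀ : ℝ}
    {y z : ℝ → E} (hy : ∀ t ∈ Ioo a b, HasDerivAt y (Φ (y t)) t)
    (hz : ∀ t ∈ Ioo a b, HasDerivAt z (Φ (z t)) t) (ht₀ : t₀ ∈ Ioo a b) (h : y t₀ = z t₀) :
    ∀ t ∈ Ioo a b, y t = z t := by
  intro t ht
  have hmin : a < min t t₀ := lt_min ht.1 ht₀.1
  have hmax : max t t₀ < b := max_lt ht.2 ht₀.2
  have e1 := min_le_left t t₀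
  have e2 := min_le_right t t₀
  have e3 := le_max_left t t₀
  have e4 := le_max_right t t₀
  obtain ⟨c, hc⟩ : ∃ c, c = (a + min t t₀) / 2 := ⟨_, rfl⟩
  obtain ⟨d, hd⟩ : ∃ d, d = (b + max t t₀) / 2 := ⟨_, rfl⟩
  have hsub : Icc c d ⊆ Ioo a b := by
    intro s hs
    constructor
    · linarith [hs.1]
    · linarith [hs.2]
  have hyc : ContinuousOn y (Icc c d) := fun s hs =>
    (hy s (hsub hs)).continuousAt.continuousWithinAt
  have hzc : ContinuousOn z (Icc c d) := fun s hs =>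
    (hz s (hsub hs)).continuousAt.continuousWithinAt
  obtain ⟨R1, hR1⟩ := isCompact_Icc.exists_bound_of_continuousOn hyc
  obtain ⟨R2, hR2⟩ := isCompact_Icc.exists_bound_of_continuousOn hzc
  obtain ⟨L, hL⟩ := hΦ (max R1 R2)
  have key := ODE_solution_unique_of_mem_Ioo (v := fun _ => Φ)
    (s := fun _ => closedBall (0 : E) (max R1 R2)) (K := L) (f := y) (g := z) (a := c) (b := d)
    (t₀ := t₀) (fun _ _ => hL) ⟨by linarith, by linarith⟩
    (fun s hs => ⟨hy s (hsub (Ioo_subset_Icc_self hs)), by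
      rw [mem_closedBall, dist_zero_right]
      exact (hR1 s (Ioo_subset_Icc_self hs)).trans (le_max_left _ _)⟩)
    (fun s hs => ⟨hz s (hsub (Ioo_subset_Icc_self hs)), by
      rw [mem_closedBall, dist_zero_right]
      exact (hR2 s (Ioo_subset_Icc_self hs)).trans (le_max_right _ _)⟩) h
  exact key ⟨by linarith, by linarith⟩

/-- gluing of solutions with the same value at `0` -/
theorem ms_glue (Φ : E → E)
    (hΦ : ∀ R : ℝ, ∃ L : NNReal, LipschitzOnWith L Φ (Metric.closedBall 0 R)) {x₀ : E} {δ : ℝ}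
    (hδ : 0 < δ) (J : Set ℝ) (τ : ℝ → ℝ) (Y : ℝ → ℝ → E)
    (hτ : ∀ t ∈ J, max t 0 < τ t ∧ Y t 0 = x₀ ∧
      ∀ s ∈ Ioo (-δ) (τ t), HasDerivAt (Y t) (Φ (Y t s)) s)
    (hJ : IsOpen J) {t : ℝ} (ht : t ∈ J) (htδ : -δ < t) :
    HasDerivAt (fun s => Y s s) (Φ (Y t t)) t := by
  obtain ⟨h1, h2, h3⟩ := hτ t ht
  have ht0 : t < τ t := lt_of_le_of_lt (le_max_left _ _) h1
  have h0 : 0 < τ t := lt_of_le_of_lt (le_max_right _ _) h1
  refine (h3 t ⟨htδ, ht0⟩).congr_of_eventuallyEq ?_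
  have hev : ∀ᶠ s in 𝓝 t, s ∈ J ∩ Ioo (-δ) (τ t) :=
    Filter.inter_mem (hJ.mem_nhds ht) (Ioo_mem_nhds htδ ht0)
  filter_upwards [hev] with s hs
  obtain ⟨g1, g2, g3⟩ := hτ s hs.1
  have hs0 : s < τ s := lt_of_le_of_lt (le_max_left _ _) g1
  have hs00 : 0 < τ s := lt_of_le_of_lt (le_max_right _ _) g1
  have key := ms_unique Φ hΦ (a := -δ) (b := min (τ s) (τ t)) (t₀ := 0) (y := Y s) (z := Y t)
    (fun r hr => g3 r ⟨hr.1, hr.2.trans_le (min_le_left _ _)⟩)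
    (fun r hr => h3 r ⟨hr.1, hr.2.trans_le (min_le_right _ _)⟩)
    ⟨by linarith, lt_min hs00 h0⟩ (by rw [g2, h2])
  exact key s ⟨hs.2.1, lt_min hs0 hs.2.2⟩

theorem max_sol {E : Type*} [NormedAddCommGroup E] [NormedSpace ℝ E] [CompleteSpace E]
    (Φ : E → E) (hΦ : ∀ R : ℝ, ∃ L : NNReal, LipschitzOnWith L Φ (Metric.closedBall 0 R))
    (x₀ : E) :
    ∃ (δ : ℝ) (U : ℝ → E), 0 < δ ∧ U 0 = x₀ ∧
      ((∀ t ∈ Set.Ioi (-δ), HasDerivAt U (Φ (U t)) t) ∨
        ∃ T : ℝ, 0 < T ∧ (∀ t ∈ Set.Ioo (-δ) T, HasDerivAt U (Φ (U t)) t) ∧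
          Filter.Tendsto (fun t => ‖U t‖) (nhdsWithin T (Set.Iio T)) Filter.atTop) := by
  obtain ⟨δ, hδ, hloc⟩ := ms_local Φ hΦ ‖x₀‖
  obtain ⟨S, hS⟩ : ∃ S : Set ℝ, S = {T : ℝ | 0 < T ∧ ∃ y : ℝ → E, y 0 = x₀ ∧
    ∀ t ∈ Ioo (-δ) T, HasDerivAt y (Φ (y t)) t} := ⟨_, rfl⟩
  have hmem : ∀ T, T ∈ S ↔ 0 < T ∧ ∃ y : ℝ → E, y 0 = x₀ ∧
      ∀ t ∈ Ioo (-δ) T, HasDerivAt y (Φ (y t)) t := by
    intro T
    rw [hS]
    rfl
  have hδS : δ ∈ S := by
    rw [hmem]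
    obtain ⟨α, h1, h2⟩ := hloc x₀ 0 le_rfl
    refine ⟨hδ, α, h1, fun t ht => h2 t ⟨by linarith [ht.1], by linarith [ht.2]⟩⟩
  have hdown : ∀ T ∈ S, ∀ T', 0 < T' → T' ≤ T → T' ∈ S := by
    intro T hT T' h0 hle
    rw [hmem] at hT ⊢
    obtain ⟨-, y, hy0, hy⟩ := hT
    exact ⟨h0, y, hy0, fun t ht => hy t ⟨ht.1, ht.2.trans_le hle⟩⟩
  classical
  have hch : ∀ T : ℝ, ∃ y : ℝ → E, T ∈ S → (y 0 = x₀ ∧
      ∀ t ∈ Ioo (-δ) T, HasDerivAt y (Φ (y t)) t) := by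
    intro T
    by_cases h : T ∈ S
    · obtain ⟨-, y, hy⟩ := (hmem T).1 h
      exact ⟨y, fun _ => hy⟩
    · exact ⟨fun _ => 0, fun h' => absurd h' h⟩
  choose Y hY using hch
  by_cases hbd : BddAbove S
  · -- bounded case
    obtain ⟨T, hT⟩ : ∃ T, T = sSup S := ⟨_, rfl⟩
    have hTδ : δ ≤ T := by rw [hT]; exact le_csSup hbd hδS
    have hT0 : 0 < T := lt_of_lt_of_le hδ hTδ
    have hlt : ∀ T', 0 < T' → T' < T → T' ∈ S := by
      intro T' h0 h1
      rw [hT] at h1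
      obtain ⟨T'', h2, h3⟩ := exists_lt_of_lt_csSup ⟨δ, hδS⟩ h1
      exact hdown T'' h2 T' h0 h3.le
    have hτ : ∀ t ∈ Iio T, max t 0 < (max t 0 + T) / 2 ∧ Y ((max t 0 + T) / 2) 0 = x₀ ∧
        ∀ s ∈ Ioo (-δ) ((max t 0 + T) / 2),
          HasDerivAt (Y ((max t 0 + T) / 2)) (Φ (Y ((max t 0 + T) / 2) s)) s := by
      intro t ht
      have h1 : max t 0 < T := max_lt ht hT0
      have h2 : 0 ≤ max t 0 := le_max_right _ _
      have h3 : (max t 0 + T) / 2 ∈ S := hlt _ (by linarith) (by linarith)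
      exact ⟨by linarith, (hY _ h3).1, (hY _ h3).2⟩
    obtain ⟨U, hU⟩ : ∃ U : ℝ → E, U = fun s => Y ((max s 0 + T) / 2) s := ⟨_, rfl⟩
    have hUd : ∀ t ∈ Ioo (-δ) T, HasDerivAt U (Φ (U t)) t := by
      intro t ht
      rw [hU]
      exact ms_glue Φ hΦ hδ (Iio T) (fun t => (max t 0 + T) / 2)
        (fun t => Y ((max t 0 + T) / 2)) hτ isOpen_Iio ht.2 ht.1
    have hU0 : U 0 = x₀ := by
      rw [hU]
      exact (hτ 0 hT0).2.1
    refine ⟨δ, U, hδ, hU0, Or.inr ⟨T, hT0, hUd, ?_⟩⟩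
    by_contra hnt
    rw [Filter.tendsto_atTop] at hnt
    push Not at hnt
    obtain ⟨R, hR⟩ := hnt
    obtain ⟨ε, hε, hloc2⟩ := ms_local Φ hΦ R
    have hev : ∀ᶠ s in 𝓝[<] T, s ∈ Ioo (max (T - ε) 0) T :=
      Ioo_mem_nhdsLT (max_lt (by linarith) hT0)
    obtain ⟨t₁, h1, h2⟩ := (hR.and_eventually hev).exists
    have ht1T : t₁ < T := h2.2
    have ht1 : T - ε < t₁ := lt_of_le_of_lt (le_max_left _ _) h2.1
    have ht10 : 0 < t₁ := lt_of_le_of_lt (le_max_right _ _) h2.1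
    obtain ⟨α, hα0, hα⟩ := hloc2 (U t₁) t₁ h1.le
    -- `U` and `α` agree on the common interval
    have hagree := ms_unique Φ hΦ (a := max (-δ) (t₁ - ε)) (b := T) (t₀ := t₁) (y := U) (z := α)
      (fun r hr => hUd r ⟨(le_max_left _ _).trans_lt hr.1, hr.2⟩)
      (fun r hr => hα r ⟨(le_max_right _ _).trans_lt hr.1, by linarith [hr.2]⟩)
      ⟨max_lt (by linarith) (by linarith), h2.2⟩ hα0.symm
    have hnew : t₁ + ε ∈ S := by
      rw [hmem]
      refine ⟨by linarith, fun s => if s < T then U s else α s, ?_, ?_⟩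
      · show (if (0 : ℝ) < T then U 0 else α 0) = x₀
        rw [if_pos hT0, hU0]
      · intro t ht
        rcases lt_or_ge t T with hlt' | hge
        · have e : (fun s => if s < T then U s else α s) =ᶠ[𝓝 t] U := by
            filter_upwards [Iio_mem_nhds hlt'] with s hs
            exact if_pos hs
          show HasDerivAt (fun s => if s < T then U s else α s)
            (Φ (if t < T then U t else α t)) t
          rw [if_pos hlt']
          exact (hUd t ⟨ht.1, hlt'⟩).congr_of_eventuallyEq e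
        · have hm : max (-δ) (t₁ - ε) < t := max_lt (by linarith) (by linarith)
          have e : (fun s => if s < T then U s else α s) =ᶠ[𝓝 t] α := by
            filter_upwards [Ioi_mem_nhds hm] with s hs
            split_ifs with h
            · exact hagree s ⟨hs, h⟩
            · rfl
          show HasDerivAt (fun s => if s < T then U s else α s)
            (Φ (if t < T then U t else α t)) t
          rw [if_neg (not_lt.2 hge)]
          exact (hα t ⟨by linarith, ht.2⟩).congr_of_eventuallyEq e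
    have : t₁ + ε ≤ T := by rw [hT]; exact le_csSup hbd hnew
    linarith
  · -- unbounded case
    have hall : ∀ T, 0 < T → T ∈ S := by
      intro T h0
      rw [not_bddAbove_iff] at hbd
      obtain ⟨T', h1, h2⟩ := hbd T
      exact hdown T' h1 T h0 h2.le
    have hτ : ∀ t ∈ (univ : Set ℝ), max t 0 < max t 0 + 1 ∧ Y (max t 0 + 1) 0 = x₀ ∧
        ∀ s ∈ Ioo (-δ) (max t 0 + 1), HasDerivAt (Y (max t 0 + 1)) (Φ (Y (max t 0 + 1) s)) s := by
      intro t _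
      have h2 : 0 ≤ max t 0 := le_max_right _ _
      have h3 : max t 0 + 1 ∈ S := hall _ (by linarith)
      exact ⟨by linarith, (hY _ h3).1, (hY _ h3).2⟩
    refine ⟨δ, fun s => Y (max s 0 + 1) s, hδ, (hτ 0 (mem_univ _)).2.1, Or.inl ?_⟩
    intro t ht
    exact ms_glue Φ hΦ hδ univ (fun t => max t 0 + 1) (fun t => Y (max t 0 + 1)) hτ isOpen_univ
      (mem_univ _) ht

end Pool.Agent.TH126.ODE
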